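import Mathlib
import Pool.Agent.Y674.HL.Sub
import Pool.Agent.Y674.HL.Emb

/-!
The archimedean subspace theorem for the integers of a number field `F` and linear forms with
integer coefficients in the conjugates.
-/

set_option autoImplicit false

open Finset Filter Topology

namespace Pool.Agent.Y674.HM

open NumberField
open Pool.Agent.Y674.HL (sub_gen exists_gal exists_cj)

section core

variable {F : Type} [Field F] [NumberField F] {d : ℕ}

theorem tr_eq (ρ : Fin d → (F →+* ℂ)) (hρ : Function.Bijective ρ) (a : F) :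
    ((Algebra.trace ℚ F a : ℚ) : ℂ) = ∑ i, ρ i a := by
  have h1 := trace_eq_sum_embeddings (K := ℚ) (L := F) ℂ (x := a)
  rw [eq_ratCast] at h1
  rw [h1]
  have h2 : ∑ σ : F →ₐ[ℚ] ℂ, σ a = ∑ f : F →+* ℂ, f a :=
    Fintype.sum_equiv (RingHom.equivRatAlgHom F ℂ).symm _ _ (fun σ => rfl)
  rw [h2]
  exact (Function.Bijective.sum_comp hρ (fun f : F →+* ℂ => f a)).symm

omit [NumberField F] in
theorem indep (ρ : Fin d → (F →+* ℂ)) (hρ : Function.Injective ρ) (w : Fin d → ℂ)
    (h : ∀ a : F, ∑ i, w i * ρ i a = 0) : w = 0 := by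
  have h1 := linearIndependent_monoidHom F ℂ
  have h2 : LinearIndependent ℂ (fun i : Fin d => (⇑((ρ i : F →+* ℂ) : F →* ℂ) : F → ℂ)) := by
    refine h1.comp (fun i : Fin d => ((ρ i : F →+* ℂ) : F →* ℂ)) ?_
    intro i j hij
    apply hρ
    ext a
    exact congrArg (fun f : F →* ℂ => f a) hij
  rw [Fintype.linearIndependent_iff] at h2
  funext i
  refine h2 w ?_ i
  funext a
  simpa [Finset.sum_apply] using h a

/-- every functional on the integers is the trace form with an element of the field -/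
theorem dual_elem (ρ : Fin d → (F →+* ℂ)) (hρ : Function.Bijective ρ)
    (b : Module.Basis (Fin d) ℤ (𝓞 F)) (y : Fin d → ℤ) :
    ∃ β : F, ∀ a : 𝓞 F, ∑ i, ρ i β * ρ i (a : F) = ((∑ j, y j * b.repr a j : ℤ) : ℂ) := by
  set bF : Module.Basis (Fin d) ℚ F :=
    b.localizationLocalization ℚ (nonZeroDivisors ℤ) F with hbF
  set g : F →ₗ[ℚ] ℚ := bF.constr ℚ (fun j => (y j : ℚ)) with hg
  set β : F := ((Algebra.traceForm ℚ F).toDual (traceForm_nondegenerate ℚ F)).symm g with hβ
  refine ⟨β, fun a => ?_⟩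
  have h1 : Algebra.trace ℚ F (β * (a : F)) = g (a : F) :=
    LinearMap.BilinForm.apply_toDual_symm_apply (hB := traceForm_nondegenerate ℚ F) g (a : F)
  have h2 : g (a : F) = ((∑ j, y j * b.repr a j : ℤ) : ℚ) := by
    rw [hg, Module.Basis.constr_apply_fintype]
    push_cast
    refine Finset.sum_congr rfl fun j _ => ?_
    have h3 := b.localizationLocalization_repr_algebraMap ℚ (nonZeroDivisors ℤ) F a j
    rw [Module.Basis.equivFun_apply, smul_eq_mul, mul_comm]
    congr 1
  have h4 := tr_eq ρ hρ (β * (a : F))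
  rw [h1, h2] at h4
  simp only [map_mul] at h4
  rw [← h4]
  push_cast
  rfl

theorem span_zero (b : Module.Basis (Fin d) ℤ (𝓞 F)) (ρ : Fin d → (F →+* ℂ)) (w : Fin d → ℂ)
    (h : ∀ j, ∑ i, w i * ρ i ((b j : 𝓞 F) : F) = 0) (a : F) : ∑ i, w i * ρ i a = 0 := by
  set bF : Module.Basis (Fin d) ℚ F :=
    b.localizationLocalization ℚ (nonZeroDivisors ℤ) F with hbF
  have h1 : a = ∑ j, bF.repr a j • ((b j : 𝓞 F) : F) := by
    conv_lhs => rw [← bF.sum_repr a]
    refine Finset.sum_congr rfl fun j _ => ?_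
    rw [hbF, Module.Basis.localizationLocalization_apply]
  rw [h1]
  simp only [map_sum, Finset.mul_sum]
  rw [Finset.sum_comm]
  refine Finset.sum_eq_zero fun j _ => ?_
  have h2 : ∀ i, w i * ρ i (bF.repr a j • ((b j : 𝓞 F) : F)) =
      ((bF.repr a j : ℚ) : ℂ) * (w i * ρ i ((b j : 𝓞 F) : F)) := by
    intro i
    rw [Rat.smul_def, map_mul, map_ratCast]
    ring
  simp_rw [h2, ← Finset.mul_sum, h j, mul_zero]

variable {K : Type} [Field K] [NumberField K]

/-- the matrix of the forms in the coordinates of the basis `b` -/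
noncomputable def Nm (c : Matrix (Fin d) (Fin d) ℤ) (r : Fin d → (F →+* K))
    (b : Module.Basis (Fin d) ℤ (𝓞 F)) : Matrix (Fin d) (Fin d) (𝓞 K) :=
  c.map (Int.castRingHom (𝓞 K)) * Matrix.of fun i j => RingOfIntegers.mapRingHom (r i) (b j)

theorem Nm_det (c : Matrix (Fin d) (Fin d) ℤ) (hc : c.det ≠ 0) (r : Fin d → (F →+* K))
    (b : Module.Basis (Fin d) ℤ (𝓞 F)) (ψ : K →+* ℂ)
    (hρ : Function.Injective fun i => ψ.comp (r i)) : (Nm c r b).det ≠ 0 := by
  rw [Nm, Matrix.det_mul]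
  apply mul_ne_zero
  · have : (c.map (Int.castRingHom (𝓞 K))).det = ((c.det : ℤ) : 𝓞 K) := by
      rw [← RingHom.mapMatrix_apply, ← RingHom.map_det]
      rfl
    rw [this]
    exact_mod_cast hc
  · intro hdet
    obtain ⟨u, hu, hu0⟩ := Matrix.exists_vecMul_eq_zero_iff.2 hdet
    apply hu
    have h1 : (fun i => ψ (u i : K)) = 0 := by
      apply indep (fun i => ψ.comp (r i)) hρ
      apply span_zero b (fun i => ψ.comp (r i))
      intro j
      have h2 := congrArg (fun a : 𝓞 K => ψ (a : K)) (congrFun hu0 j)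
      simp only [Matrix.vecMul, dotProduct, Matrix.of_apply, Pi.zero_apply] at h2
      simp only [map_sum, map_mul, map_zero] at h2
      rw [← h2]
      rfl
    funext k
    have h2 := congrFun h1 k
    simp only [Pi.zero_apply, map_eq_zero] at h2
    exact_mod_cast h2

/-- **The archimedean subspace theorem for the integers of a number field.** -/
theorem sub_field (F : Type) [Field F] [NumberField F] {d : ℕ} (hd : 1 ≤ d)
    (ρ : Fin d → (F →+* ℂ)) (hρ : Function.Bijective ρ) (c : Matrix (Fin d) (Fin d) ℤ)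
    (hc : c.det ≠ 0) (l : ℕ → 𝓞 F) (hl : ∀ t, l t ≠ 0) (X : ℕ → ℝ) (hX : Tendsto X atTop atTop)
    (A : ℕ → Fin d → ℝ) (C γ : ℝ) (hγ : 0 < γ) (hA : ∀ t k, 0 < A t k)
    (hAc : ∀ t k, |Real.log (A t k)| ≤ C * X t)
    (hAs : ∀ t, ∑ k, Real.log (A t k) + γ * X t ≤ 0)
    (hs : ∀ t k, ‖∑ i, (c k i : ℂ) * ρ i (l t : F)‖ ≤ A t k) :
    ∃ β : F, β ≠ 0 ∧ ∃ᶠ t in atTop, ∑ i, ρ i β * ρ i (l t : F) = 0 := by
  classical
  obtain ⟨K, hfin, hgal, hI, hmem⟩ := exists_gal F
  have : NumberField K := ⟨⟩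
  set ψ : K →+* ℂ := (algebraMap K ℂ) with hψ
  obtain ⟨cj, hcj⟩ := exists_cj ψ
  set iK : 𝓞 K := ⟨⟨Complex.I, hI⟩, by
    refine ⟨Polynomial.X ^ 2 + 1, by monicity!, ?_⟩
    rw [← Polynomial.aeval_def, map_add, map_pow, Polynomial.aeval_X, map_one]
    apply Subtype.ext
    push_cast
    simp⟩ with hiK
  have hi : ψ (iK : K) = Complex.I := rfl
  set r : Fin d → (F →+* K) := fun i => (ρ i).codRestrict K.toSubfield.toSubring (hmem (ρ i))
    with hr
  have hrρ : (fun i => ψ.comp (r i)) = ρ := by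
    funext i
    ext a
    rfl
  have hrank : Module.finrank ℤ (𝓞 F) = d := by
    rw [RingOfIntegers.rank, ← NumberField.Embeddings.card F ℂ, ← Fintype.card_of_bijective hρ,
      Fintype.card_fin]
  set b : Module.Basis (Fin d) ℤ (𝓞 F) := Module.finBasisOfFinrankEq ℤ (𝓞 F) hrank with hb
  have hdet : (Nm c r b).det ≠ 0 := Nm_det c hc r b ψ (by rw [hrρ]; exact hρ.1)
  set z : ℕ → Fin d → ℤ := fun t j => b.repr (l t) j with hz
  have hsum : ∀ t k, ψ (∑ j, ((Nm c r b k j : 𝓞 K) : K) * (z t j : K)) =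
      ∑ i, ((c k i : ℤ) : ℂ) * ρ i (l t : F) := by
    intro t k
    have e1 : ∀ i, ρ i (l t : F) = ∑ j, (z t j : ℂ) * ρ i ((b j : 𝓞 F) : F) := by
      intro i
      have e2 : ((l t : 𝓞 F) : F) = ∑ j, (z t j : F) * ((b j : 𝓞 F) : F) := by
        conv_lhs => rw [← b.sum_repr (l t)]
        simp only [RingOfIntegers.coe_eq_algebraMap, map_sum, zsmul_eq_mul, map_mul, map_intCast]
        rfl
      have e3 := congrArg (ρ i) e2
      simp only [RingOfIntegers.coe_eq_algebraMap, map_sum, map_mul, map_intCast] at e3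
      exact e3
    simp_rw [e1, Nm, Matrix.mul_apply, Matrix.of_apply, Matrix.map_apply]
    simp only [RingOfIntegers.coe_eq_algebraMap, map_sum, map_mul, eq_intCast, map_intCast,
      Finset.sum_mul, Finset.mul_sum]
    rw [Finset.sum_comm]
    refine Finset.sum_congr rfl fun i _ => Finset.sum_congr rfl fun j _ => ?_
    have e4 : ψ (algebraMap (𝓞 K) K (RingOfIntegers.mapRingHom (r i) (b j))) =
        ρ i (algebraMap (𝓞 F) F (b j)) := rfl
    rw [e4]
    ring
  obtain ⟨y, hy, hfr⟩ := sub_gen ψ cj hcj iK hi (m := d) hd (Nm c r b) hdet z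
    (by
      intro t h
      apply hl t
      have : b.repr (l t) = 0 := by
        ext j
        exact congrFun h j
      rwa [LinearEquiv.map_eq_zero_iff] at this)
    X hX A C γ hγ hA hAc hAs (fun t k => by rw [hsum]; exact hs t k)
  obtain ⟨β, hβ⟩ := dual_elem ρ hρ b y
  refine ⟨β, ?_, ?_⟩
  · intro h0
    apply hy
    funext j
    have e1 := hβ (b j)
    rw [h0] at e1
    simp only [map_zero, zero_mul, Finset.sum_const_zero, Module.Basis.repr_self] at e1
    rw [Finset.sum_eq_single j] at e1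
    · rw [Finsupp.single_eq_same, mul_one] at e1
      simpa using (Int.cast_eq_zero.1 e1.symm)
    · intro j' _ hj'
      rw [Finsupp.single_eq_of_ne hj', mul_zero]
    · intro h; exact absurd (Finset.mem_univ _) h
  · refine hfr.mono fun t ht => ?_
    rw [hβ]
    have : ∑ j, y j * b.repr (l t) j = 0 := ht
    rw [this]
    simp

end core

end Pool.Agent.Y674.HM
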