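import Mathlib
import Pool.Agent.Y674.HM.Gen
import Pool.Agent.Y674.HL.Size

/-!
Integers of a cubic field whose conjugates are nearly proportional to `2, -1, -1`.
-/

set_option autoImplicit false

open Finset Filter Topology

namespace Pool.Agent.Y674.HM

open NumberField

/-- the matrix of the forms -/
def c3 : Matrix (Fin 3) (Fin 3) ℤ := !![2, -1, -1; 0, 1, -1; 1, 1, 1]

theorem c3_det : c3.det ≠ 0 := by
  unfold c3
  rw [Matrix.det_fin_three]
  simp

theorem core3 (F : Type) [Field F] [NumberField F] (ρ : Fin 3 → (F →+* ℂ))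
    (hρ : Function.Bijective ρ) (ε : ℝ) (hε : 0 < ε) :
    ∃ s0 : ℝ, ∀ (s a : ℝ) (l : 𝓞 F), s0 ≤ s → ∑ i, ρ i (l : F) = 0 →
      ‖ρ 0 (l : F) - 2 * s‖ ≤ 1 → ‖ρ 1 (l : F) + s‖ ≤ 1 → ‖ρ 2 (l : F) + s‖ ≤ 1 →
      ‖ρ 1 (l : F) - ρ 2 (l : F)‖ ≤ a → 0 < a → |Real.log a| ≤ 3 * Real.log s →
      Real.log 27 + Real.log s + Real.log a + ε * Real.log s ≤ 0 → False := by
  classical
  by_contra hcon
  push Not at hcon
  choose s a l hs h0 h1 h2 h3 h4 ha hla hlog using fun t : ℕ => hcon ((t : ℝ) + 9)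
  have hs9 : ∀ t, 9 ≤ s t := fun t => by
    have := hs t
    have h : (0 : ℝ) ≤ t := Nat.cast_nonneg t
    linarith
  have hst : Tendsto s atTop atTop := by
    refine tendsto_atTop_mono hs ?_
    exact tendsto_atTop_add_const_right _ _ tendsto_natCast_atTop_atTop
  have hone : ∀ t i, ρ i ((l t + 1 : 𝓞 F) : F) = ρ i (l t : F) + 1 := by
    intro t i
    simp only [RingOfIntegers.coe_eq_algebraMap, map_add, map_one]
  obtain ⟨β, hβ, hfr⟩ := sub_field F (d := 3) (by norm_num) ρ hρ c3 c3_det (fun t => l t + 1)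
    (by
      intro t e1
      have e3 : ∑ i, ρ i ((l t + 1 : 𝓞 F) : F) = 3 := by
        simp only [hone, Finset.sum_add_distrib]
        rw [h0 t]
        simp
      rw [e1] at e3
      simp at e3)
    (fun t => Real.log (s t)) (Real.tendsto_log_atTop.comp hst)
    (fun t => ![9 * s t, a t, 3]) 3 ε hε
    (by
      intro t k
      have := hs9 t
      have h5 := ha t
      fin_cases k
      · show 0 < 9 * s t
        positivity
      · exact h5
      · show (0 : ℝ) < 3
        norm_num)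
    (by
      intro t k
      have h5 := hs9 t
      have h6 : Real.log 9 ≤ Real.log (s t) := Real.log_le_log (by norm_num) h5
      have h7 : 0 ≤ Real.log 9 := Real.log_nonneg (by norm_num)
      have h8 : Real.log 3 ≤ Real.log 9 := Real.log_le_log (by norm_num) (by norm_num)
      have h9 : 0 ≤ Real.log 3 := Real.log_nonneg (by norm_num)
      fin_cases k
      · show |Real.log (9 * s t)| ≤ 3 * Real.log (s t)
        rw [Real.log_mul (by norm_num) (by positivity), abs_of_nonneg (by linarith)]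
        linarith
      · exact hla t
      · show |Real.log 3| ≤ 3 * Real.log (s t)
        rw [abs_of_nonneg h9]
        linarith)
    (by
      intro t
      have h5 := hs9 t
      rw [Fin.sum_univ_three]
      show Real.log (9 * s t) + Real.log (a t) + Real.log 3 + ε * Real.log (s t) ≤ 0
      rw [Real.log_mul (by norm_num) (by positivity)]
      have h8 : Real.log 27 = Real.log 9 + Real.log 3 := by
        rw [← Real.log_mul (by norm_num) (by norm_num)]
        norm_num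
      have := hlog t
      linarith)
    (by
      intro t k
      have h5 := hs9 t
      have h00 := h0 t
      rw [Fin.sum_univ_three] at h00
      simp only [hone]
      have h6 : ‖ρ 0 (l t : F)‖ ≤ 2 * s t + 1 := by
        have e1 := norm_add_le (ρ 0 (l t : F) - 2 * s t) (2 * s t)
        rw [sub_add_cancel, norm_mul, Complex.norm_real, Real.norm_of_nonneg (by linarith)] at e1
        have e2 := h1 t
        have e3 : ‖(2 : ℂ)‖ = 2 := by norm_num
        rw [e3] at e1
        linarith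
      fin_cases k
      · have e1 : ∑ i, ((c3 0 i : ℤ) : ℂ) * (ρ i (l t : F) + 1) = 3 * ρ 0 (l t : F) := by
          simp [c3, Fin.sum_univ_three]
          linear_combination -h00
        show ‖∑ i, ((c3 0 i : ℤ) : ℂ) * (ρ i (l t : F) + 1)‖ ≤ 9 * s t
        rw [e1, norm_mul]
        have e3 : ‖(3 : ℂ)‖ = 3 := by norm_num
        rw [e3]
        linarith
      · have e1 : ∑ i, ((c3 1 i : ℤ) : ℂ) * (ρ i (l t : F) + 1) =
            ρ 1 (l t : F) - ρ 2 (l t : F) := by
          simp [c3, Fin.sum_univ_three]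
          ring
        show ‖∑ i, ((c3 1 i : ℤ) : ℂ) * (ρ i (l t : F) + 1)‖ ≤ a t
        rw [e1]
        exact h4 t
      · have e1 : ∑ i, ((c3 2 i : ℤ) : ℂ) * (ρ i (l t : F) + 1) = 3 := by
          simp [c3, Fin.sum_univ_three]
          linear_combination h00
        show ‖∑ i, ((c3 2 i : ℤ) : ℂ) * (ρ i (l t : F) + 1)‖ ≤ 3
        rw [e1]
        norm_num)
  simp only [hone, Fin.sum_univ_three] at hfr
  -- the relation between the conjugates of `β`
  have key : 2 * ρ 0 β - ρ 1 β - ρ 2 β = 0 := by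
    by_contra hne
    have hpos : 0 < ‖2 * ρ 0 β - ρ 1 β - ρ 2 β‖ := norm_pos_iff.2 hne
    have hev : ∀ᶠ t in atTop, 2 * (‖ρ 0 β‖ + ‖ρ 1 β‖ + ‖ρ 2 β‖) <
        s t * ‖2 * ρ 0 β - ρ 1 β - ρ 2 β‖ ∧ 0 < s t :=
      ((hst.atTop_mul_const hpos).eventually_gt_atTop _).and (hst.eventually_gt_atTop 0)
    obtain ⟨t, ht, ht1, ht2⟩ := (hfr.and_eventually hev).exists
    have e2 : (s t : ℂ) * (2 * ρ 0 β - ρ 1 β - ρ 2 β) =
        -(ρ 0 β * (ρ 0 (l t : F) - 2 * s t) + ρ 0 β + (ρ 1 β * (ρ 1 (l t : F) + s t) + ρ 1 β)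
        + (ρ 2 β * (ρ 2 (l t : F) + s t) + ρ 2 β)) := by
      linear_combination ht
    have e3 : s t * ‖2 * ρ 0 β - ρ 1 β - ρ 2 β‖ =
        ‖(s t : ℂ) * (2 * ρ 0 β - ρ 1 β - ρ 2 β)‖ := by
      rw [norm_mul, Complex.norm_real, Real.norm_of_nonneg ht2.le]
    have bi : ∀ (i : Fin 3) (w : ℂ), ‖w‖ ≤ 1 → ‖ρ i β * w + ρ i β‖ ≤ 2 * ‖ρ i β‖ := by
      intro i w hw
      calc ‖ρ i β * w + ρ i β‖ ≤ ‖ρ i β * w‖ + ‖ρ i β‖ := norm_add_le _ _
        _ = ‖ρ i β‖ * ‖w‖ + ‖ρ i β‖ := by rw [norm_mul]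
        _ ≤ ‖ρ i β‖ * 1 + ‖ρ i β‖ := by gcongr
        _ = _ := by ring
    rw [e3, e2, norm_neg] at ht1
    have e4 := norm_add₃_le (a := ρ 0 β * (ρ 0 (l t : F) - 2 * s t) + ρ 0 β)
      (b := ρ 1 β * (ρ 1 (l t : F) + s t) + ρ 1 β) (c := ρ 2 β * (ρ 2 (l t : F) + s t) + ρ 2 β)
    have e5 := bi 0 _ (h1 t)
    have e6 := bi 1 _ (h2 t)
    have e7 := bi 2 _ (h3 t)
    linarith
  -- `β` is rational
  have htr := tr_eq ρ hρ β
  rw [Fin.sum_univ_three] at htr
  have hβq : 3 * β = ((Algebra.trace ℚ F β : ℚ) : F) := by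
    apply (ρ 0).injective
    rw [map_mul, map_ratCast, htr, map_ofNat]
    linear_combination key
  have e2 : ∀ i, ρ i β = ((Algebra.trace ℚ F β : ℚ) : ℂ) / 3 := by
    intro i
    have := congrArg (ρ i) hβq
    rw [map_mul, map_ratCast, map_ofNat] at this
    linear_combination this / 3
  obtain ⟨t, ht⟩ := hfr.exists
  have h00 := h0 t
  rw [Fin.sum_univ_three] at h00
  rw [e2 0, e2 1, e2 2] at ht
  have e3 : ((Algebra.trace ℚ F β : ℚ) : ℂ) = 0 := by
    linear_combination ht - ((Algebra.trace ℚ F β : ℚ) : ℂ) / 3 * h00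
  have e4 : (Algebra.trace ℚ F β : ℚ) = 0 := by exact_mod_cast e3
  rw [e4] at hβq
  apply hβ
  simpa using hβq

end Pool.Agent.Y674.HM
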