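import Mathlib
import Pool.Agent.Y674.HM.Cub

/-!
Integral points of Mordell curves whose trisection cubic has a root in a cubic field.
-/

set_option autoImplicit false

open Filter Topology

namespace Pool.Agent.Y674.HM

open NumberField
open Pool.Agent.Y674.HL (log_abs_le)

theorem core3_all (F : Type) [Field F] [NumberField F] (ε : ℝ) (hε : 0 < ε) :
    ∃ s0 : ℝ, ∀ (ρ : Fin 3 → (F →+* ℂ)), Function.Bijective ρ →
      ∀ (s a : ℝ) (l : 𝓞 F), s0 ≤ s → ∑ i, ρ i (l : F) = 0 →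
      ‖ρ 0 (l : F) - 2 * s‖ ≤ 1 → ‖ρ 1 (l : F) + s‖ ≤ 1 → ‖ρ 2 (l : F) + s‖ ≤ 1 →
      ‖ρ 1 (l : F) - ρ 2 (l : F)‖ ≤ a → 0 < a → |Real.log a| ≤ 3 * Real.log s →
      Real.log 27 + Real.log s + Real.log a + ε * Real.log s ≤ 0 → False := by
  have h : ∀ ρ : Fin 3 → (F →+* ℂ), ∃ s0 : ℝ, Function.Bijective ρ →
      ∀ (s a : ℝ) (l : 𝓞 F), s0 ≤ s → ∑ i, ρ i (l : F) = 0 →
      ‖ρ 0 (l : F) - 2 * s‖ ≤ 1 → ‖ρ 1 (l : F) + s‖ ≤ 1 → ‖ρ 2 (l : F) + s‖ ≤ 1 →
      ‖ρ 1 (l : F) - ρ 2 (l : F)‖ ≤ a → 0 < a → |Real.log a| ≤ 3 * Real.log s →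
      Real.log 27 + Real.log s + Real.log a + ε * Real.log s ≤ 0 → False := by
    intro ρ
    by_cases hρ : Function.Bijective ρ
    · obtain ⟨s0, hs0⟩ := core3 F ρ hρ ε hε
      exact ⟨s0, fun _ => hs0⟩
    · exact ⟨0, fun h => absurd h hρ⟩
  choose f hf using h
  obtain ⟨M, hM⟩ := (Set.finite_range f).bddAbove
  exact ⟨M, fun ρ hρ s a l hs => hf ρ hρ s a l (le_trans (hM ⟨ρ, rfl⟩) hs)⟩

/-- the roots of the cubic are near `2 s` or near `- s` -/
theorem near_root {w : ℂ} {s y η : ℝ} (hs : 0 < s) (hy : |y - s ^ 3| ≤ η)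
    (hw : w ^ 3 - 3 * (s ^ 2 : ℝ) * w - 2 * y = 0) :
    (‖w - 2 * s‖ ≤ 2 * η / s ^ 2) ∨ (‖w + s‖ ^ 2 ≤ η / s) := by
  have h1 : (w - 2 * s) * (w + s) ^ 2 = 2 * ((y - s ^ 3 : ℝ) : ℂ) := by
    push_cast at hw ⊢
    linear_combination hw
  have h2 : ‖w - 2 * s‖ * ‖w + s‖ ^ 2 ≤ 2 * η := by
    rw [← norm_pow, ← norm_mul, h1, norm_mul, Complex.norm_real, Real.norm_eq_abs]
    have h4 : ‖(2 : ℂ)‖ = 2 := by norm_num
    rw [h4]
    linarith
  rcases le_or_gt s ‖w + s‖ with h | h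
  · left
    rw [le_div_iff₀ (by positivity)]
    calc ‖w - 2 * s‖ * s ^ 2 ≤ ‖w - 2 * s‖ * ‖w + s‖ ^ 2 := by gcongr
      _ ≤ 2 * η := h2
  · right
    have h3 : 2 * s ≤ ‖w - 2 * s‖ := by
      have h5 : ((3 * s : ℝ) : ℂ) = (w + s) - (w - 2 * s) := by push_cast; ring
      have h6 := norm_sub_le (w + s) (w - 2 * s)
      rw [← h5, Complex.norm_real, Real.norm_of_nonneg (by positivity)] at h6
      linarith
    rw [le_div_iff₀ hs]
    have h7 : 2 * s * ‖w + s‖ ^ 2 ≤ ‖w - 2 * s‖ * ‖w + s‖ ^ 2 := by gcongr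
    linarith

/-- the three roots -/
theorem three_near {w : Fin 3 → ℂ} {s : ℝ} (hs : 1 ≤ s) (hsum : ∑ i, w i = 0)
    (h : ∀ i, ‖w i - 2 * s‖ ≤ 1 / 4 ∨ ‖w i + s‖ ≤ 1 / 4) :
    ∃ i j k : Fin 3, i ≠ j ∧ i ≠ k ∧ j ≠ k ∧ ‖w i - 2 * s‖ ≤ 1 / 4 ∧
      ¬ ‖w j - 2 * s‖ ≤ 1 / 4 ∧ ¬ ‖w k - 2 * s‖ ≤ 1 / 4 := by
  rw [Fin.sum_univ_three] at hsum
  -- the two alternatives exclude each other
  have hex : ∀ z : ℂ, ‖z - 2 * s‖ ≤ 1 / 4 → ‖z + s‖ ≤ 1 / 4 → False := by
    intro z h1 h2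
    have h5 : ((3 * s : ℝ) : ℂ) = (z + s) - (z - 2 * s) := by push_cast; ring
    have h6 := norm_sub_le (z + s) (z - 2 * s)
    rw [← h5, Complex.norm_real, Real.norm_of_nonneg (by positivity)] at h6
    linarith
  have key : ∀ a b c : ℂ, a + b + c = 0 → ‖a - 2 * s‖ ≤ 1 / 4 → ‖b - 2 * s‖ ≤ 1 / 4 →
      (‖c - 2 * s‖ ≤ 1 / 4 ∨ ‖c + s‖ ≤ 1 / 4) → False := by
    intro a b c habc ha hb hc
    rcases hc with hc | hc
    · have h5 : ((6 * s : ℝ) : ℂ) = -((a - 2 * s) + (b - 2 * s) + (c - 2 * s)) := by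
        push_cast
        linear_combination habc
      have h6 := norm_add₃_le (a := a - 2 * s) (b := b - 2 * s) (c := c - 2 * s)
      rw [← norm_neg, ← h5, Complex.norm_real, Real.norm_of_nonneg (by positivity)] at h6
      linarith
    · have h5 : ((3 * s : ℝ) : ℂ) = -((a - 2 * s) + (b - 2 * s) + (c + s)) := by
        push_cast
        linear_combination habc
      have h6 := norm_add₃_le (a := a - 2 * s) (b := b - 2 * s) (c := c + s)
      rw [← norm_neg, ← h5, Complex.norm_real, Real.norm_of_nonneg (by positivity)] at h6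
      linarith
  have key2 : ∀ a b c : ℂ, a + b + c = 0 → ‖a + s‖ ≤ 1 / 4 → ‖b + s‖ ≤ 1 / 4 →
      ‖c + s‖ ≤ 1 / 4 → False := by
    intro a b c habc ha hb hc
    have h5 : ((3 * s : ℝ) : ℂ) = (a + s) + (b + s) + (c + s) := by
      push_cast
      linear_combination -habc
    have h6 := norm_add₃_le (a := a + s) (b := b + s) (c := c + s)
    rw [← h5, Complex.norm_real, Real.norm_of_nonneg (by positivity)] at h6
    linarith
  have h0 := h 0
  have h1 := h 1
  have h2 := h 2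
  by_cases p0 : ‖w 0 - 2 * s‖ ≤ 1 / 4
  · refine ⟨0, 1, 2, by decide, by decide, by decide, p0, fun p1 => ?_, fun p2 => ?_⟩
    · exact key _ _ _ hsum p0 p1 h2
    · exact key _ _ _ (by linear_combination hsum) p0 p2 h1
  · by_cases p1 : ‖w 1 - 2 * s‖ ≤ 1 / 4
    · refine ⟨1, 0, 2, by decide, by decide, by decide, p1, p0, fun p2 => ?_⟩
      exact key _ _ _ (by linear_combination hsum) p1 p2 h0
    · by_cases p2 : ‖w 2 - 2 * s‖ ≤ 1 / 4
      · exact ⟨2, 0, 1, by decide, by decide, by decide, p2, p0, p1⟩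
      · exfalso
        exact key2 _ _ _ hsum (h0.resolve_left p0) (h1.resolve_left p1) (h2.resolve_left p2)

theorem size3 (δ : ℝ) (hδ : 0 < δ) : ∃ s1 : ℝ, 8 ≤ s1 ∧ ∀ s k : ℝ, s1 ≤ s → 1 ≤ k →
    k ≤ s ^ (2 - δ) → √k ≤ s ∧
    0 < 2 * √k / s ^ 2 ∧ |Real.log (2 * √k / s ^ 2)| ≤ 3 * Real.log s ∧
    Real.log 27 + Real.log s + Real.log (2 * √k / s ^ 2) + δ / 4 * Real.log s ≤ 0 := by
  have hlim : Tendsto (fun s : ℝ => 54 * s ^ (-(δ / 4))) atTop (𝓝 (54 * 0)) :=
    Tendsto.const_mul _ (tendsto_rpow_neg_atTop (by positivity))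
  have hev : ∀ᶠ s : ℝ in atTop, 54 * s ^ (-(δ / 4)) < 1 :=
    hlim.eventually_lt_const (by norm_num)
  obtain ⟨s0, hs0⟩ := Filter.eventually_atTop.1 hev
  refine ⟨max s0 8, le_max_right _ _, ?_⟩
  intro s k hs hk hks
  have hs1 : s0 ≤ s := le_trans (le_max_left _ _) hs
  have hs8 : 8 ≤ s := le_trans (le_max_right _ _) hs
  have hspos : 0 < s := by linarith
  have hsone : 1 ≤ s := by linarith
  have hk0 : 0 < k := by linarith
  have hsq1 : 1 ≤ √k := by rw [Real.one_le_sqrt]; exact hk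
  have hks2 : √k ≤ s ^ (1 - δ / 2) := by
    have h1 : (s ^ (1 - δ / 2)) ^ 2 = s ^ (2 - δ) := by
      rw [← Real.rpow_natCast, ← Real.rpow_mul hspos.le]
      congr 1
      push_cast
      ring
    rw [← h1] at hks
    exact Real.sqrt_le_iff.2 ⟨by positivity, hks⟩
  have hsqs : √k ≤ s := by
    refine hks2.trans ?_
    conv_rhs => rw [← Real.rpow_one s]
    exact Real.rpow_le_rpow_of_exponent_le hsone (by linarith)
  have ha : 0 < 2 * √k / s ^ 2 := by positivity
  refine ⟨hsqs, ha, log_abs_le hsone ?_ ?_, ?_⟩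
  · rw [div_le_div_iff₀ (by positivity) (by positivity)]
    have h1 : s ^ 2 ≤ s ^ 3 := by nlinarith [sq_nonneg s]
    nlinarith [pow_pos hspos 3]
  · rw [div_le_iff₀ (by positivity)]
    have h1 : 1 ≤ s ^ 2 := one_le_pow₀ hsone
    have h2 : s * 1 ≤ s * (s ^ 2) := by gcongr
    have h3 : 8 * s ^ 3 ≤ s ^ 3 * s ^ 2 := by
      have : 8 ≤ s ^ 2 := by nlinarith
      have h4 : 0 < s ^ 3 := by positivity
      nlinarith
    have h5 : s * s ^ 2 = s ^ 3 := by ring
    have h6 : 0 < s ^ 3 := by positivity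
    nlinarith
  · rw [← Real.log_mul (by norm_num) hspos.ne', ← Real.log_mul (by positivity) ha.ne',
      ← Real.log_rpow hspos, ← Real.log_mul (by positivity) (by positivity)]
    apply Real.log_nonpos (by positivity)
    have e1 : 27 * s * (2 * √k / s ^ 2) = 54 * (√k / s) := by
      field_simp
      norm_num
    have e2 : √k / s ≤ s ^ (-(δ / 2)) := by
      rw [div_le_iff₀ hspos]
      calc √k ≤ s ^ (1 - δ / 2) := hks2
        _ = s ^ (-(δ / 2)) * s := by
            rw [sub_eq_neg_add, Real.rpow_add hspos, Real.rpow_one]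
    have e3 : s ^ (-(δ / 2)) * s ^ (δ / 4) = s ^ (-(δ / 4)) := by
      rw [← Real.rpow_add hspos]
      congr 1
      ring
    have e4 := hs0 s hs1
    rw [e1]
    calc 54 * (√k / s) * s ^ (δ / 4) ≤ 54 * s ^ (-(δ / 2)) * s ^ (δ / 4) := by gcongr
      _ = 54 * s ^ (-(δ / 4)) := by rw [mul_assoc, e3]
      _ ≤ 1 := e4.le

/-- a root of the trisection cubic in a cubic field, and not in a smaller one -/
theorem cubic_field (F : Type) [Field F] [NumberField F] (hF : Module.finrank ℚ F = 3) (δ : ℝ)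
    (hδ : 0 < δ) : ∃ s1 : ℝ, ∀ (k x y : ℤ) (u : F), k ≠ 0 →
      y ^ 2 = x ^ 3 + k → u ^ 3 - 3 * x * u - 2 * y = 0 →
      (∀ σ σ' : F →+* ℂ, σ u = σ' u → σ = σ') → ∀ s : ℝ, s1 ≤ s → s ^ 2 = x →
      |(k : ℝ)| ≤ s ^ (2 - δ) → False := by
  classical
  obtain ⟨s0, hs0⟩ := core3_all F (δ / 4) (by positivity)
  obtain ⟨s1, hs18, hs1⟩ := size3 δ hδ
  refine ⟨max s0 s1, ?_⟩
  -- the main case
  have main : ∀ (k x y : ℤ) (u : F), k ≠ 0 → 0 ≤ y →
      y ^ 2 = x ^ 3 + k → u ^ 3 - 3 * x * u - 2 * y = 0 →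
      (∀ σ σ' : F →+* ℂ, σ u = σ' u → σ = σ') → ∀ s : ℝ, max s0 s1 ≤ s → s ^ 2 = x →
      |(k : ℝ)| ≤ s ^ (2 - δ) → False := by
    intro k x y u hk hy hE hu hinj s hs hsx hks
    have hk1 : (1 : ℝ) ≤ |(k : ℝ)| := by
      have := Int.one_le_abs hk
      exact_mod_cast this
    obtain ⟨z1, z2, z3, z4⟩ := hs1 s |(k : ℝ)| (le_trans (le_max_right _ _) hs) hk1 hks
    have hs8 : 8 ≤ s := le_trans hs18 (le_trans (le_max_right _ _) hs)
    have hspos : 0 < s := by linarith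
    have hER : (y : ℝ) ^ 2 = (s ^ 2) ^ 3 + k := by rw [hsx]; exact_mod_cast hE
    have hyR : (0 : ℝ) ≤ y := by exact_mod_cast hy
    have hη : |(y : ℝ) - s ^ 3| ≤ |(k : ℝ)| / s ^ 3 := by
      rw [le_div_iff₀ (by positivity)]
      have h1 : (k : ℝ) = (y - s ^ 3) * (y + s ^ 3) := by linear_combination -hER
      rw [h1, abs_mul, abs_of_nonneg (by positivity : (0 : ℝ) ≤ y + s ^ 3)]
      gcongr
      linarith
    have hk2 : |(k : ℝ)| = √|(k : ℝ)| ^ 2 := (Real.sq_sqrt (abs_nonneg _)).symm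
    have hxs : (((s ^ 2 : ℝ)) : ℂ) = (x : ℂ) := by rw [hsx]; simp
    -- the roots
    have hnear : ∀ σ : F →+* ℂ, ‖σ u - 2 * s‖ ≤ 1 / 4 ∨ ‖σ u + s‖ ≤ √|(k : ℝ)| / s ^ 2 := by
      intro σ
      have h1 : (σ u) ^ 3 - 3 * (s ^ 2 : ℝ) * σ u - 2 * (y : ℝ) = 0 := by
        have := congrArg σ hu
        simp only [map_sub, map_mul, map_pow, map_intCast, map_ofNat, map_zero] at this
        rw [hxs]
        push_cast
        exact this
      rcases near_root hspos hη h1 with h2 | h2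
      · left
        refine h2.trans ?_
        rw [div_le_iff₀ (by positivity), mul_div_assoc', div_le_iff₀ (by positivity), hk2]
        have h3 : √|(k : ℝ)| ^ 2 ≤ s ^ 2 := by gcongr
        have h4 : (8 : ℝ) ^ 3 ≤ s ^ 3 := by gcongr
        have h5 : 0 < s ^ 2 := by positivity
        nlinarith
      · right
        refine abs_le_of_sq_le_sq' ?_ (by positivity) |>.2
        refine h2.trans (le_of_eq ?_)
        rw [div_pow, Real.sq_sqrt (abs_nonneg _)]
        field_simp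
    have hν : √|(k : ℝ)| / s ^ 2 ≤ 1 / 4 := by
      rw [div_le_div_iff₀ (by positivity) (by norm_num)]
      nlinarith
    -- an enumeration of the embeddings
    have hcard : Fintype.card (Fin 3) = Fintype.card (F →+* ℂ) := by
      rw [NumberField.Embeddings.card, hF, Fintype.card_fin]
    obtain ⟨e⟩ := Fintype.card_eq.1 hcard
    have hw : ∀ i, (e i u) ^ 3 - 3 * x * e i u - 2 * y = 0 := by
      intro i
      have := congrArg (e i) hu
      simp only [map_sub, map_mul, map_pow, map_intCast, map_ofNat, map_zero] at this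
      exact this
    have hne : ∀ i j, i ≠ j → e i u ≠ e j u := by
      intro i j hij h
      exact hij (e.injective (hinj _ _ h))
    have hsum : ∑ i, e i u = 0 := by
      rw [Fin.sum_univ_three]
      have n01 := sub_ne_zero.2 (hne 0 1 (by decide))
      have n12 := sub_ne_zero.2 (hne 1 2 (by decide))
      have n02 := sub_ne_zero.2 (hne 0 2 (by decide))
      have w0 := hw 0
      have w1 := hw 1
      have w2 := hw 2
      have q1 : (e 0 u) ^ 2 + e 0 u * e 1 u + (e 1 u) ^ 2 - 3 * x = 0 := by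
        apply mul_left_cancel₀ n01
        rw [mul_zero]
        linear_combination w0 - w1
      have q2 : (e 0 u) ^ 2 + e 0 u * e 2 u + (e 2 u) ^ 2 - 3 * x = 0 := by
        apply mul_left_cancel₀ n02
        rw [mul_zero]
        linear_combination w0 - w2
      apply mul_left_cancel₀ n12
      rw [mul_zero]
      linear_combination q1 - q2
    obtain ⟨i, j, l, hij, hil, hjl, p1, p2, p3⟩ := three_near (w := fun i => e i u) (s := s)
      (by linarith) hsum (fun i => (hnear (e i)).imp id (fun h => h.trans hν))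
    have q2 := (hnear (e j)).resolve_left p2
    have q3 := (hnear (e l)).resolve_left p3
    set ρ : Fin 3 → (F →+* ℂ) := ![e i, e j, e l] with hρ
    have hbij : Function.Bijective ρ := by
      rw [Fintype.bijective_iff_injective_and_card]
      refine ⟨?_, hcard⟩
      have n1 := e.injective.ne hij
      have n2 := e.injective.ne hil
      have n3 := e.injective.ne hjl
      intro a b hab
      fin_cases a <;> fin_cases b <;> simp [hρ] at hab ⊢
      · exact hij hab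
      · exact hil hab
      · exact hij hab.symm
      · exact hjl hab
      · exact hil hab.symm
      · exact hjl hab.symm
    have hint : IsIntegral ℤ u := by
      refine ⟨Polynomial.X ^ 3 - Polynomial.C (3 * x) * Polynomial.X - Polynomial.C (2 * y), ?_, ?_⟩
      · monicity!
      · rw [← Polynomial.aeval_def]
        simp only [map_sub, map_mul, map_pow, Polynomial.aeval_X, eq_intCast,
          map_intCast, map_ofNat]
        exact hu
    refine hs0 ρ hbij s (2 * √|(k : ℝ)| / s ^ 2) ⟨u, hint⟩ (le_trans (le_max_left _ _) hs) ?_ ?_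
      ?_ ?_ ?_ z2 z3 z4
    · have h1 := Function.Bijective.sum_comp hbij (fun f : F →+* ℂ => f u)
      have h2 := Function.Bijective.sum_comp e.bijective (fun f : F →+* ℂ => f u)
      show ∑ i, ρ i u = 0
      rw [h1, ← h2]
      exact hsum
    · show ‖e i u - 2 * s‖ ≤ 1
      linarith
    · show ‖e j u + s‖ ≤ 1
      linarith
    · show ‖e l u + s‖ ≤ 1
      linarith
    · show ‖e j u - e l u‖ ≤ 2 * √|(k : ℝ)| / s ^ 2
      have h1 : e j u - e l u = (e j u + s) - (e l u + s) := by ring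
      have h2 := norm_sub_le (e j u + s) (e l u + s)
      rw [← h1] at h2
      have h3 : 2 * √|(k : ℝ)| / s ^ 2 = √|(k : ℝ)| / s ^ 2 + √|(k : ℝ)| / s ^ 2 := by ring
      rw [h3]
      linarith
  intro k x y u hk hE hu hinj s hs hsx hks
  rcases le_total 0 y with hy | hy
  · exact main k x y u hk hy hE hu hinj s hs hsx hks
  · refine main k x (-y) (-u) hk (by linarith) (by rw [neg_sq]; exact hE) ?_ ?_ s hs hsx hks
    · push_cast
      linear_combination -hu
    · intro σ σ' h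
      apply hinj
      rw [map_neg, map_neg] at h
      exact neg_injective h

end Pool.Agent.Y674.HM
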