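import Mathlib
import Pool.Agent.Y674.HM.CubF
import Pool.Agent.Y674.HL.Fin

/-!
Mordell curves: integral points in the image of the 3-isogeny over a number field, and integral
points which are divisible by two over a number field.
-/

set_option autoImplicit false

open Polynomial

namespace Pool.Agent.Y674.HM

open NumberField
open Pool.Agent.Y674.HL (finite_intermediate emb_inj Half half_root trichotomy Qp case2 case3_all)

/-- the trisection cubic -/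
noncomputable def Cp (x y : ℤ) : ℤ[X] := X ^ 3 - C (3 * x) * X - C (2 * y)

theorem Cp_natDegree (x y : ℤ) : (Cp x y).natDegree = 3 := by
  unfold Cp
  compute_degree!

theorem Cp_monic (x y : ℤ) : (Cp x y).Monic := by
  unfold Cp
  monicity!

theorem Cp_aeval {R : Type} [CommRing R] (x y : ℤ) (u : R) :
    aeval u (Cp x y) = u ^ 3 - 3 * x * u - 2 * y := by
  unfold Cp
  simp only [map_sub, map_mul, map_pow, Polynomial.aeval_X, eq_intCast, map_intCast, map_ofNat]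

theorem Cp_eval (x y u : ℤ) : eval u (Cp x y) = u ^ 3 - 3 * x * u - 2 * y := by
  unfold Cp
  simp

theorem dichotomy (x y : ℤ) : (∃ u : ℤ, u ^ 3 - 3 * x * u - 2 * y = 0) ∨
    Irreducible (Cp x y) := by
  by_cases hirr : Irreducible (Cp x y)
  · exact Or.inr hirr
  left
  rw [(Cp_monic x y).irreducible_iff_natDegree'] at hirr
  have h1 : Cp x y ≠ 1 := by
    intro h
    have := Cp_natDegree x y
    rw [h] at this
    simp at this
  push Not at hirr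
  obtain ⟨f, g, hf, hg, hfg, hdeg⟩ := hirr h1
  rw [Cp_natDegree, Finset.mem_Ioc] at hdeg
  have h : g.natDegree = 1 := by omega
  have hgl : g = X + C (g.coeff 0) := by
    conv_lhs => rw [Polynomial.eq_X_add_C_of_natDegree_le_one h.le]
    have : g.coeff 1 = 1 := by
      rw [← h]
      exact hg
    rw [this, C_1, one_mul]
  refine ⟨-g.coeff 0, ?_⟩
  rw [← Cp_eval, ← hfg, eval_mul]
  conv_lhs => rw [hgl]
  simp

/-- the trisection cubic has an integer root -/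
theorem caseInt {k x y u : ℤ} (hk : k ≠ 0) (hE : y ^ 2 = x ^ 3 + k)
    (hu : u ^ 3 - 3 * x * u - 2 * y = 0) : x ≤ 4 * |k| := by
  have h1 : 4 * k = (u ^ 2 - 4 * x) * (u ^ 2 - x) ^ 2 := by
    have h2 : 4 * y ^ 2 = (u ^ 3 - 3 * x * u) ^ 2 := by
      have : u ^ 3 - 3 * x * u = 2 * y := by linarith
      rw [this]
      ring
    have h3 : 4 * k = 4 * y ^ 2 - 4 * x ^ 3 := by linarith
    rw [h3, h2]
    ring
  have hk1 : 1 ≤ |k| := Int.one_le_abs hk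
  have ha : u ^ 2 - 4 * x ≠ 0 := by
    intro h
    rw [h, zero_mul] at h1
    exact hk (by linarith)
  have hb : u ^ 2 - x ≠ 0 := by
    intro h
    rw [h] at h1
    exact hk (by linarith)
  have ha1 : 1 ≤ |u ^ 2 - 4 * x| := Int.one_le_abs ha
  have hb1 : 1 ≤ |u ^ 2 - x| := Int.one_le_abs hb
  have h4 : 4 * |k| = |u ^ 2 - 4 * x| * |u ^ 2 - x| ^ 2 := by
    rw [← abs_pow, ← abs_mul, ← h1, abs_mul]
    rfl
  by_contra hcon
  push Not at hcon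
  rcases le_or_gt x |u ^ 2 - 4 * x| with h | h
  · have h5 : |u ^ 2 - 4 * x| * 1 ≤ |u ^ 2 - 4 * x| * |u ^ 2 - x| ^ 2 := by
      have : 1 ≤ |u ^ 2 - x| ^ 2 := one_le_pow₀ hb1
      gcongr
    linarith
  · have h6 := abs_lt.1 h
    have h7 : 2 * x ≤ |u ^ 2 - x| := by
      have := le_abs_self (u ^ 2 - x)
      linarith
    have h8 : 1 * |u ^ 2 - x| ^ 2 ≤ |u ^ 2 - 4 * x| * |u ^ 2 - x| ^ 2 := by gcongr
    have h9 : (2 * x) ^ 2 ≤ |u ^ 2 - x| ^ 2 := by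
      have : 0 ≤ 2 * x := by linarith
      gcongr
    nlinarith

/-- the irreducible case, for all cubic subfields of `K` -/
theorem cubic_all (K : Type) [Field K] [NumberField K] (δ : ℝ) (hδ : 0 < δ) :
    ∃ s1 : ℝ, ∀ (k x y : ℤ) (u : K), k ≠ 0 →
      y ^ 2 = x ^ 3 + k → Irreducible (Cp x y) → u ^ 3 - 3 * x * u - 2 * y = 0 →
      ∀ s : ℝ, s1 ≤ s → s ^ 2 = x → |(k : ℝ)| ≤ s ^ (2 - δ) → False := by
  have := finite_intermediate K
  have h : ∀ F : IntermediateField ℚ K, ∃ s1 : ℝ, Module.finrank ℚ F = 3 →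
      ∀ (k x y : ℤ) (u : F), k ≠ 0 →
      y ^ 2 = x ^ 3 + k → u ^ 3 - 3 * x * u - 2 * y = 0 →
      (∀ σ σ' : F →+* ℂ, σ u = σ' u → σ = σ') → ∀ s : ℝ, s1 ≤ s → s ^ 2 = x →
      |(k : ℝ)| ≤ s ^ (2 - δ) → False := by
    intro F
    by_cases hF : Module.finrank ℚ F = 3
    · obtain ⟨s1, hs1⟩ := cubic_field F hF δ hδ
      exact ⟨s1, fun _ => hs1⟩
    · exact ⟨0, fun h => absurd h hF⟩
  choose f hf using h
  obtain ⟨M, hM⟩ := (Set.finite_range f).bddAbove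
  refine ⟨M, fun k x y u h0 hE hirr hu s hs => ?_⟩
  have hroot : aeval u ((Cp x y).map (algebraMap ℤ ℚ)) = 0 := by
    rw [aeval_map_algebraMap, Cp_aeval]
    exact hu
  have hirr' : Irreducible ((Cp x y).map (algebraMap ℤ ℚ)) :=
    ((Cp_monic x y).irreducible_iff_irreducible_map_fraction_map (K := ℚ)).1 hirr
  have hmin := minpoly.eq_of_irreducible_of_monic hirr' hroot ((Cp_monic x y).map _)
  have hrank : Module.finrank ℚ (IntermediateField.adjoin ℚ {u}) = 3 := by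
    rw [IntermediateField.adjoin.finrank (IsIntegral.of_finite ℚ u), ← hmin,
      (Cp_monic x y).natDegree_map, Cp_natDegree]
  refine hf (IntermediateField.adjoin ℚ {u}) hrank k x y
    (IntermediateField.AdjoinSimple.gen ℚ u) h0 hE ?_ (emb_inj u) s
    (le_trans (hM ⟨_, rfl⟩) hs)
  apply Subtype.ext
  push_cast
  rw [IntermediateField.AdjoinSimple.coe_gen]
  exact hu

/-- from the bound of `x` to the bound of `y` -/
theorem mord_fin {k x y : ℤ} (hk : k ≠ 0) (hE : y ^ 2 = x ^ 3 + k) {C κ : ℝ} (hC : 1 ≤ C)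
    (hκ : 1 ≤ κ) (hx : (x : ℝ) ≤ C * |(k : ℝ)| ^ κ) :
    |(x : ℝ)| ≤ 2 * C ^ 3 * |(k : ℝ)| ^ κ ∧ |(y : ℝ)| ≤ 2 * C ^ 3 * |(k : ℝ)| ^ (3 * κ / 2) := by
  have hk1 : (1 : ℝ) ≤ |(k : ℝ)| := by
    have := Int.one_le_abs hk
    exact_mod_cast this
  have hER : (y : ℝ) ^ 2 = x ^ 3 + k := by exact_mod_cast hE
  have hk0 : 0 < |(k : ℝ)| := by linarith
  have hP : |(k : ℝ)| ≤ |(k : ℝ)| ^ κ := by
    conv_lhs => rw [← Real.rpow_one |(k : ℝ)|]
    exact Real.rpow_le_rpow_of_exponent_le hk1 hκ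
  have hPpos : 0 < |(k : ℝ)| ^ κ := by positivity
  have hxa : |(x : ℝ)| ≤ C * |(k : ℝ)| ^ κ := by
    rcases lt_or_ge (x : ℝ) 0 with h | h
    · have h1 : |(x : ℝ)| ^ 3 ≤ |(k : ℝ)| := by
        have h2 : |(x : ℝ)| ^ 3 = -(x : ℝ) ^ 3 := by
          rw [abs_of_neg h]
          ring
        rw [h2]
        have := le_abs_self (k : ℝ)
        nlinarith [sq_nonneg (y : ℝ)]
      have h3 : |(x : ℝ)| ≤ |(k : ℝ)| := by
        by_contra hcon
        push Not at hcon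
        have h4 : 1 < |(x : ℝ)| := by linarith
        nlinarith [mul_pos (by linarith : 0 < |(x : ℝ)|) (by linarith : 0 < |(x : ℝ)|)]
      have h4 : 1 * |(k : ℝ)| ^ κ ≤ C * |(k : ℝ)| ^ κ := by gcongr
      linarith
    · rw [abs_of_nonneg h]
      exact hx
  have hCC : C ≤ 2 * C ^ 3 := by nlinarith [sq_nonneg C]
  refine ⟨hxa.trans (by gcongr), ?_⟩
  have h1 : (y : ℝ) ^ 2 ≤ |(x : ℝ)| ^ 3 + |(k : ℝ)| := by
    rw [hER]
    have q1 : (x : ℝ) ^ 3 ≤ |(x : ℝ)| ^ 3 := by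
      rw [← abs_pow]
      exact le_abs_self _
    have := le_abs_self (k : ℝ)
    linarith
  have h3 : |(x : ℝ)| ^ 3 ≤ C ^ 3 * (|(k : ℝ)| ^ κ) ^ 3 := by
    rw [← mul_pow]
    gcongr
  have hP1 : 1 ≤ |(k : ℝ)| ^ κ := hk1.trans hP
  have hC3 : 1 ≤ C ^ 3 := one_le_pow₀ hC
  have h5 : (y : ℝ) ^ 2 ≤ 2 * C ^ 3 * (|(k : ℝ)| ^ κ) ^ 3 := by
    have q1 : (|(k : ℝ)| ^ κ) ≤ (|(k : ℝ)| ^ κ) ^ 3 := by
      have : 1 ≤ (|(k : ℝ)| ^ κ) ^ 2 := one_le_pow₀ hP1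
      nlinarith
    have q2 : 1 * (|(k : ℝ)| ^ κ) ^ 3 ≤ C ^ 3 * (|(k : ℝ)| ^ κ) ^ 3 := by gcongr
    nlinarith
  have h6 : (|(k : ℝ)| ^ κ) ^ 3 = (|(k : ℝ)| ^ (3 * κ / 2)) ^ 2 := by
    rw [← Real.rpow_natCast, ← Real.rpow_mul hk0.le, ← Real.rpow_natCast,
      ← Real.rpow_mul hk0.le]
    congr 1
    push_cast
    ring
  rw [h6] at h5
  have h7 : 2 * C ^ 3 ≤ (2 * C ^ 3) ^ 2 := by nlinarith
  refine abs_le_of_sq_le_sq ?_ (by positivity)
  calc (y : ℝ) ^ 2 ≤ 2 * C ^ 3 * (|(k : ℝ)| ^ (3 * κ / 2)) ^ 2 := h5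
    _ ≤ (2 * C ^ 3) ^ 2 * (|(k : ℝ)| ^ (3 * κ / 2)) ^ 2 := by gcongr
    _ = _ := by ring

/-- integral points whose trisection cubic has a root in `K` -/
theorem root_bound (K : Type) [Field K] [NumberField K] (κ : ℝ) (hκ : 1 < κ) :
    ∃ C : ℝ, 1 ≤ C ∧ ∀ (k x y : ℤ) (u : K), k ≠ 0 → y ^ 2 = x ^ 3 + k →
      u ^ 3 - 3 * x * u - 2 * y = 0 → (x : ℝ) ≤ C * |(k : ℝ)| ^ κ := by
  have hκ0 : 0 < κ := by linarith
  have hδ : 0 < 2 - 2 / κ := by
    rw [sub_pos, div_lt_iff₀ hκ0]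
    linarith
  obtain ⟨s1, hs1⟩ := cubic_all K (2 - 2 / κ) hδ
  refine ⟨max 4 (s1 ^ 2), le_trans (by norm_num) (le_max_left _ _), ?_⟩
  intro k x y u hk hE hu
  have hk1 : (1 : ℝ) ≤ |(k : ℝ)| := by
    have := Int.one_le_abs hk
    exact_mod_cast this
  have hP : |(k : ℝ)| ≤ |(k : ℝ)| ^ κ := by
    conv_lhs => rw [← Real.rpow_one |(k : ℝ)|]
    exact Real.rpow_le_rpow_of_exponent_le hk1 hκ.le
  have hC0 : (0 : ℝ) ≤ max 4 (s1 ^ 2) := le_trans (by norm_num) (le_max_left _ _)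
  have hPpos : 0 < |(k : ℝ)| ^ κ := by positivity
  rcases dichotomy x y with ⟨l, hl⟩ | hirr
  · have h1 := caseInt hk hE hl
    have h2 : (x : ℝ) ≤ 4 * |(k : ℝ)| := by exact_mod_cast h1
    calc (x : ℝ) ≤ 4 * |(k : ℝ)| ^ κ := by linarith
      _ ≤ max 4 (s1 ^ 2) * |(k : ℝ)| ^ κ := by
          gcongr
          exact le_max_left _ _
  · rcases lt_or_ge (x : ℝ) 0 with hx | hx
    · exact hx.le.trans (by positivity)
    by_cases hs : s1 ≤ Real.sqrt x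
    · have h6 := hs1 k x y u hk hE hirr hu (Real.sqrt x) hs (Real.sq_sqrt hx)
      have h7 : Real.sqrt x ^ (2 / κ) < |(k : ℝ)| := by
        by_contra hcon
        push Not at hcon
        apply h6
        have : 2 - (2 - 2 / κ) = 2 / κ := by ring
        rw [this]
        exact hcon
      have h8 : (x : ℝ) = (Real.sqrt x ^ (2 / κ)) ^ κ := by
        rw [← Real.rpow_mul (Real.sqrt_nonneg _), div_mul_cancel₀ _ hκ0.ne']
        have : Real.sqrt x ^ (2 : ℝ) = Real.sqrt x ^ (2 : ℕ) := by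
          rw [← Real.rpow_natCast]
          norm_num
        rw [this, Real.sq_sqrt hx]
      have h9 : (Real.sqrt x ^ (2 / κ)) ^ κ ≤ |(k : ℝ)| ^ κ :=
        Real.rpow_le_rpow (by positivity) h7.le hκ0.le
      calc (x : ℝ) ≤ 1 * |(k : ℝ)| ^ κ := by rw [one_mul]; linarith
        _ ≤ max 4 (s1 ^ 2) * |(k : ℝ)| ^ κ := by
            gcongr
            exact le_trans (by norm_num) (le_max_left _ _)
    · push Not at hs
      have h6 : (x : ℝ) ≤ s1 ^ 2 := by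
        rw [← Real.sq_sqrt hx]
        gcongr
      calc (x : ℝ) ≤ s1 ^ 2 * 1 := by linarith
        _ ≤ max 4 (s1 ^ 2) * |(k : ℝ)| ^ κ := by
            gcongr
            · exact le_max_right _ _
            · linarith

/-- the root of the trisection cubic -/
theorem isog_root {K : Type} [Field K] [CharZero K] {k x y : ℤ} {X Y : K} (hX : X ≠ 0)
    (h1 : Y ^ 2 = X ^ 3 - 27 * k) (h2 : 9 * X ^ 2 * x = X ^ 3 - 108 * k)
    (h3 : 27 * X ^ 3 * y = Y * (X ^ 3 + 216 * k)) :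
    (2 * Y / (3 * X)) ^ 3 - 3 * x * (2 * Y / (3 * X)) - 2 * y = 0 := by
  have h27 : (27 : K) * X ^ 3 ≠ 0 := mul_ne_zero (by norm_num) (pow_ne_zero 3 hX)
  apply mul_left_cancel₀ h27
  have e1 : (27 : K) * X ^ 3 * ((2 * Y / (3 * X)) ^ 3 - 3 * x * (2 * Y / (3 * X)) - 2 * y) =
      8 * Y ^ 3 - 6 * Y * (9 * X ^ 2 * x) - 2 * (27 * X ^ 3 * y) := by
    field_simp
    ring
  rw [e1, h2, h3, mul_zero]
  linear_combination (8 * Y) * h1

/-- Hall's conjecture with exponent `1 + ε` in the image of the 3-isogeny over `K` -/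
theorem isog (K : Type) [Field K] [NumberField K] (ε : ℝ) (hε : 0 < ε) :
    ∃ C : ℝ, ∀ k x y : ℤ, k ≠ 0 → y ^ 2 = x ^ 3 + k →
      (∃ X Y : K, X ≠ 0 ∧ Y ^ 2 = X ^ 3 - 27 * k ∧ 9 * X ^ 2 * x = X ^ 3 - 108 * k ∧
        27 * X ^ 3 * y = Y * (X ^ 3 + 216 * k)) →
      |(x : ℝ)| ≤ C * |(k : ℝ)| ^ (1 + ε) ∧ |(y : ℝ)| ≤ C * |(k : ℝ)| ^ (3 / 2 + ε) := by
  obtain ⟨C, hC1, hC⟩ := root_bound K (1 + 2 * ε / 3) (by linarith)
  refine ⟨2 * C ^ 3, fun k x y hk hE hQ => ?_⟩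
  obtain ⟨X, Y, hX, h1, h2, h3⟩ := hQ
  have hk1 : (1 : ℝ) ≤ |(k : ℝ)| := by
    have := Int.one_le_abs hk
    exact_mod_cast this
  have h4 := mord_fin hk hE hC1 (by linarith) (hC k x y _ hk hE (isog_root hX h1 h2 h3))
  have e3 : 3 * (1 + 2 * ε / 3) / 2 = 3 / 2 + ε := by ring
  rw [e3] at h4
  refine ⟨h4.1.trans ?_, h4.2⟩
  gcongr
  linarith

/-- the exponents are best possible -/
theorem isog_sharp (K : Type) [Field K] (N : ℤ) : ∃ k x y : ℤ, k ≠ 0 ∧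
    y ^ 2 = x ^ 3 + k ∧
    (∃ X Y : K, X = -3 ∧ Y ^ 2 = X ^ 3 - 27 * k ∧ 9 * X ^ 2 * x = X ^ 3 - 108 * k ∧
        27 * X ^ 3 * y = Y * (X ^ 3 + 216 * k)) ∧
    N ≤ |x| ∧ |k| ≤ |x| ∧ |k| ^ 3 ≤ y ^ 2 := by
  obtain ⟨v, hv⟩ : ∃ v : ℤ, v = max N 1 := ⟨_, rfl⟩
  have h2 : 1 ≤ v := hv ▸ le_max_right _ _
  have hN : N ≤ v := hv ▸ le_max_left _ _
  have hx : |4 * v ^ 2 + 1| = 4 * v ^ 2 + 1 := abs_of_nonneg (by positivity)
  have hk : |-3 * v ^ 2 - 1| = 3 * v ^ 2 + 1 := by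
    rw [abs_of_neg (by nlinarith [sq_nonneg v])]
    ring
  have hvv : v ≤ v ^ 2 := by nlinarith
  refine ⟨-3 * v ^ 2 - 1, 4 * v ^ 2 + 1, -v * (8 * v ^ 2 + 3), by nlinarith [sq_nonneg v],
    by ring, ⟨-3, -9 * v, rfl, ?_, ?_, ?_⟩, ?_, ?_, ?_⟩
  · push_cast; ring
  · push_cast; ring
  · push_cast; ring
  · rw [hx]
    linarith
  · rw [hx, hk]
    linarith
  · rw [hk]
    have h3 : 1 ≤ v ^ 2 := by linarith
    have h4 : v ^ 2 ≤ v ^ 4 := by nlinarith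
    have h5 : v ^ 4 ≤ v ^ 6 := by
      have : v ^ 6 = v ^ 4 * v ^ 2 := by ring
      nlinarith
    nlinarith

end Pool.Agent.Y674.HM
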