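import Mathlib
import Pool.Agent.Y674.HM.Mord

/-!
Mordell curves: integral points which are divisible by two over a number field.
-/

set_option autoImplicit false

namespace Pool.Agent.Y674.HM

open Polynomial
open Pool.Agent.Y674.HL (Half half_root trichotomy Qp case2 case3_all)

/-- the tangent quartic has an integer root -/
theorem dblInt {k x y l : ℤ} (hk : k ≠ 0) (hx : 0 < x) (hE : y ^ 2 = x ^ 3 + k)
    (hl : l ^ 4 - 6 * x * l ^ 2 - 8 * y * l - 3 * x ^ 2 = 0) : x ^ 3 ≤ 466560 * |k| ^ 4 := by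
  obtain ⟨d, hd⟩ : ∃ d, d = l ^ 2 - x := ⟨_, rfl⟩
  have hl2 : l ^ 2 = x + d := by linarith
  have key : d ^ 3 * (d - 8 * x) = 64 * k * (x + d) := by
    have h1 : 8 * y * l = (x + d) ^ 2 - 6 * x * (x + d) - 3 * x ^ 2 := by
      have : l ^ 4 = (x + d) ^ 2 := by rw [← hl2]; ring
      rw [← this, ← hl2]
      linarith
    have h2 : 64 * (x ^ 3 + k) * (x + d) = ((x + d) ^ 2 - 6 * x * (x + d) - 3 * x ^ 2) ^ 2 := by
      rw [← h1, ← hE, ← hl2]
      ring
    linear_combination -h2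
  have hl0 : l ≠ 0 := by
    rintro rfl
    have : x ^ 2 = 0 := by linarith
    have := pow_eq_zero_iff (n := 2) (by norm_num) |>.1 this
    linarith
  have hxd : 1 ≤ x + d := by
    rw [← hl2]
    have : 0 < l ^ 2 := by positivity
    linarith
  have hd0 : d ≠ 0 := by
    rintro rfl
    have : 64 * k * x = 0 := by linarith
    rcases mul_eq_zero.1 this with h | h
    · exact hk (by linarith)
    · linarith
  have hk1 : 1 ≤ |k| := Int.one_le_abs hk
  have hd1 : 1 ≤ |d| := Int.one_le_abs hd0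
  have habs : |d| ^ 3 * |d - 8 * x| = 64 * |k| * (x + d) := by
    rw [← abs_pow, ← abs_mul, key, abs_mul, abs_mul, abs_of_nonneg (by linarith : 0 ≤ x + d)]
    rfl
  rcases le_or_gt d (4 * x) with h4 | h4
  · have h5 : |d - 8 * x| = 8 * x - d := by
      rw [abs_of_neg (by linarith)]
      ring
    have h6 : |d| ^ 3 ≤ 80 * |k| := by
      rw [h5] at habs
      have h7 : |d| ^ 3 * (4 * x) ≤ |d| ^ 3 * (8 * x - d) := by
        have : 0 ≤ |d| ^ 3 := by positivity
        apply mul_le_mul_of_nonneg_left _ this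
        linarith
      have h8 : 64 * |k| * (x + d) ≤ 64 * |k| * (5 * x) := by
        apply mul_le_mul_of_nonneg_left _ (by positivity)
        linarith
      have h9 : |d| ^ 3 * (4 * x) ≤ (80 * |k|) * (4 * x) := by linarith
      exact le_of_mul_le_mul_right h9 (by linarith)
    have h7 : d ^ 3 + 8 * k ≠ 0 := by
      intro h
      have e1 : -8 * x * (d ^ 3 + 8 * k) = 64 * k * d - d ^ 4 := by linear_combination key
      rw [h, mul_zero] at e1
      have e2 : d ^ 4 = -8 * k * d := by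
        have : d ^ 4 = d ^ 3 * d := by ring
        rw [this]
        have : d ^ 3 = -8 * k := by linarith
        rw [this]
      have e3 : k * d = 0 := by linarith
      rcases mul_eq_zero.1 e3 with h | h
      · exact hk h
      · exact hd0 h
    have h8 : 8 * x ≤ 64 * |k| * |d| + |d| ^ 4 := by
      have e1 : -8 * x * (d ^ 3 + 8 * k) = 64 * k * d - d ^ 4 := by linear_combination key
      have e2 : 8 * x * |d ^ 3 + 8 * k| = |64 * k * d - d ^ 4| := by
        rw [← e1, abs_mul, abs_mul, abs_of_pos hx]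
        rfl
      have e3 : 1 ≤ |d ^ 3 + 8 * k| := Int.one_le_abs h7
      have e4 : |64 * k * d - d ^ 4| ≤ 64 * |k| * |d| + |d| ^ 4 := by
        calc |64 * k * d - d ^ 4| ≤ |64 * k * d| + |d ^ 4| := abs_sub _ _
          _ = 64 * |k| * |d| + |d| ^ 4 := by
            rw [abs_mul, abs_mul, abs_pow]
            rfl
      have e5 : 8 * x * 1 ≤ 8 * x * |d ^ 3 + 8 * k| := by
        apply mul_le_mul_of_nonneg_left e3 (by linarith)
      linarith
    have h9 : x ≤ 18 * |k| * |d| := by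
      have e1 : |d| ^ 4 ≤ 80 * |k| * |d| := by
        have : |d| ^ 4 = |d| ^ 3 * |d| := by ring
        rw [this]
        apply mul_le_mul_of_nonneg_right h6 (by positivity)
      linarith
    calc x ^ 3 ≤ (18 * |k| * |d|) ^ 3 := by gcongr
      _ = 5832 * |k| ^ 3 * |d| ^ 3 := by ring
      _ ≤ 5832 * |k| ^ 3 * (80 * |k|) := by gcongr
      _ = 466560 * |k| ^ 4 := by ring
  · have hdpos : 0 < d := by linarith
    have hda : |d| = d := abs_of_pos hdpos
    rw [hda] at habs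
    have hw : d - 8 * x ≠ 0 := by
      intro h
      rw [h, mul_zero] at key
      have : k * (x + d) = 0 := by linarith
      rcases mul_eq_zero.1 this with h | h
      · exact hk h
      · linarith
    have hw1 : 1 ≤ |d - 8 * x| := Int.one_le_abs hw
    have h5 : d ^ 2 ≤ 80 * |k| := by
      have e1 : d * (d ^ 2 * |d - 8 * x|) ≤ d * (80 * |k|) := by
        have : d * (d ^ 2 * |d - 8 * x|) = 64 * |k| * (x + d) := by rw [← habs]; ring
        rw [this]
        have : 64 * |k| * (x + d) ≤ 64 * |k| * (x + d) + 16 * |k| * (d - 4 * x) := by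
          have : 0 ≤ 16 * |k| * (d - 4 * x) := mul_nonneg (by positivity) (by linarith)
          linarith
        linarith
      have e2 := le_of_mul_le_mul_left e1 hdpos
      have e3 : d ^ 2 * 1 ≤ d ^ 2 * |d - 8 * x| := by
        apply mul_le_mul_of_nonneg_left hw1 (by positivity)
      linarith
    have h6 : x ^ 2 ≤ 5 * |k| := by nlinarith
    have h7 : x ≤ 5 * |k| := by nlinarith
    calc x ^ 3 ≤ (5 * |k|) ^ 3 := by gcongr
      _ = 125 * |k| ^ 3 * 1 := by ring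
      _ ≤ 466560 * |k| ^ 3 * |k| := by gcongr; norm_num
      _ = 466560 * |k| ^ 4 := by ring

/-- integral points divisible by two over `K`, the abscissa -/
theorem dbl_bound (K : Type) [Field K] [NumberField K] (κ : ℝ) (hκ : 4 / 3 < κ) :
    ∃ C : ℝ, 1 ≤ C ∧ ∀ (k x y : ℤ), k ≠ 0 → y ^ 2 = x ^ 3 + k → Half K 0 k x y →
      (x : ℝ) ≤ C * |(k : ℝ)| ^ κ := by
  have hκ0 : 0 < κ := by linarith
  have hδ : 0 < 3 / 2 - 2 / κ := by
    rw [sub_pos, div_lt_iff₀ hκ0]
    linarith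
  obtain ⟨s1, hs1⟩ := case3_all K (3 / 2 - 2 / κ) hδ
  refine ⟨max 78 (s1 ^ 2), le_trans (by norm_num) (le_max_left _ _), ?_⟩
  intro k x y hk hE hH
  have hk1 : (1 : ℝ) ≤ |(k : ℝ)| := by
    have := Int.one_le_abs hk
    exact_mod_cast this
  have hP43 : |(k : ℝ)| ^ (4 / 3 : ℝ) ≤ |(k : ℝ)| ^ κ :=
    Real.rpow_le_rpow_of_exponent_le hk1 hκ.le
  have hP : |(k : ℝ)| ≤ |(k : ℝ)| ^ κ := by
    conv_lhs => rw [← Real.rpow_one |(k : ℝ)|]
    exact Real.rpow_le_rpow_of_exponent_le hk1 (by linarith)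
  have hC0 : (0 : ℝ) ≤ max 78 (s1 ^ 2) := le_trans (by norm_num) (le_max_left _ _)
  have hPpos : 0 < |(k : ℝ)| ^ κ := by positivity
  have hC78 : 78 * |(k : ℝ)| ^ κ ≤ max 78 (s1 ^ 2) * |(k : ℝ)| ^ κ := by
    gcongr
    exact le_max_left _ _
  rcases le_or_gt x 0 with hx0 | hx0
  · have : (x : ℝ) ≤ 0 := by exact_mod_cast hx0
    exact this.trans (by positivity)
  have hx0R : (0 : ℝ) < x := by exact_mod_cast hx0
  have hE' : y ^ 2 = x ^ 3 + 0 * x + k := by rw [hE]; ring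
  have hmax : max |(0 : ℤ)| |k| = |k| := by
    rw [abs_zero]
    exact max_eq_right (abs_nonneg _)
  rcases trichotomy 0 x y with ⟨l, hl⟩ | ⟨p, q, r, h1, h2, h3⟩ | hirr
  · have h1 := dblInt hk hx0 hE (by linarith : l ^ 4 - 6 * x * l ^ 2 - 8 * y * l - 3 * x ^ 2 = 0)
    have h2 : (x : ℝ) ^ 3 ≤ 466560 * |(k : ℝ)| ^ 4 := by exact_mod_cast h1
    have h3 : |(k : ℝ)| ^ 4 = (|(k : ℝ)| ^ (4 / 3 : ℝ)) ^ 3 := by
      rw [← Real.rpow_natCast, ← Real.rpow_natCast, ← Real.rpow_mul (by positivity)]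
      norm_num
    have h4 : (x : ℝ) ≤ 78 * |(k : ℝ)| ^ (4 / 3 : ℝ) := by
      apply le_of_pow_le_pow_left₀ (n := 3) (by norm_num) (by positivity)
      rw [mul_pow, ← h3]
      refine h2.trans ?_
      have : 0 ≤ |(k : ℝ)| ^ 4 := by positivity
      nlinarith
    calc (x : ℝ) ≤ 78 * |(k : ℝ)| ^ (4 / 3 : ℝ) := h4
      _ ≤ 78 * |(k : ℝ)| ^ κ := by gcongr
      _ ≤ _ := hC78
  · have h4 : x ≤ 26 * |k| := by
      refine case2 (A := 0) (B := k) (H := |k|) (Int.one_le_abs hk) (by simp) le_rfl ?_ hE'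
        h1 h2 h3
      have : k ^ 2 ≠ 0 := pow_ne_zero 2 hk
      intro h
      apply this
      linarith
    have h5 : (x : ℝ) ≤ 26 * |(k : ℝ)| := by exact_mod_cast h4
    linarith
  · obtain ⟨X, Y, l, -, e2, e3, e4⟩ := hH
    have hroot := half_root e2 e3 e4
    by_cases hs : s1 ≤ Real.sqrt x
    · have h6 := hs1 0 k x y l (Or.inr hk) hE' hirr hroot (Real.sqrt x) hs
        (Real.sq_sqrt hx0R.le)
      rw [hmax] at h6
      have h7 : Real.sqrt x ^ (2 / κ) < |(k : ℝ)| := by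
        by_contra hcon
        push Not at hcon
        apply h6
        have : 3 / 2 - (3 / 2 - 2 / κ) = 2 / κ := by ring
        rw [this]
        exact_mod_cast hcon
      have h8 : (x : ℝ) = (Real.sqrt x ^ (2 / κ)) ^ κ := by
        rw [← Real.rpow_mul (Real.sqrt_nonneg _), div_mul_cancel₀ _ hκ0.ne']
        have : Real.sqrt x ^ (2 : ℝ) = Real.sqrt x ^ (2 : ℕ) := by
          rw [← Real.rpow_natCast]
          norm_num
        rw [this, Real.sq_sqrt hx0R.le]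
      have h9 : (Real.sqrt x ^ (2 / κ)) ^ κ ≤ |(k : ℝ)| ^ κ :=
        Real.rpow_le_rpow (by positivity) h7.le hκ0.le
      calc (x : ℝ) ≤ 1 * |(k : ℝ)| ^ κ := by rw [one_mul]; linarith
        _ ≤ max 78 (s1 ^ 2) * |(k : ℝ)| ^ κ := by
            gcongr
            exact le_trans (by norm_num) (le_max_left _ _)
    · push Not at hs
      have h6 : (x : ℝ) ≤ s1 ^ 2 := by
        rw [← Real.sq_sqrt hx0R.le]
        gcongr
      calc (x : ℝ) ≤ s1 ^ 2 * 1 := by linarith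
        _ ≤ max 78 (s1 ^ 2) * |(k : ℝ)| ^ κ := by
            gcongr
            · exact le_max_right _ _
            · linarith

/-- integral points divisible by two over `K` -/
theorem dbl (K : Type) [Field K] [NumberField K] (ε : ℝ) (hε : 0 < ε) :
    ∃ C : ℝ, ∀ k x y : ℤ, k ≠ 0 → y ^ 2 = x ^ 3 + k →
      (∃ X Y l : K, Y ^ 2 = X ^ 3 + k ∧ 2 * Y * l = 3 * X ^ 2 ∧
        l ^ 2 - 2 * X = x ∧ l * (X - x) - Y = y) →
      |(x : ℝ)| ≤ C * |(k : ℝ)| ^ (4 / 3 + ε) ∧ |(y : ℝ)| ≤ C * |(k : ℝ)| ^ (2 + ε) := by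
  obtain ⟨C, hC1, hC⟩ := dbl_bound K (4 / 3 + 2 * ε / 3) (by linarith)
  refine ⟨2 * C ^ 3, fun k x y hk hE hQ => ?_⟩
  obtain ⟨X, Y, l, h1, h2, h3, h4⟩ := hQ
  have hH : Half K 0 k x y := by
    refine ⟨X, Y, l, ?_, ?_, h3, h4⟩
    · rw [h1]
      push_cast
      ring
    · rw [h2]
      push_cast
      ring
  have hk1 : (1 : ℝ) ≤ |(k : ℝ)| := by
    have := Int.one_le_abs hk
    exact_mod_cast this
  have h5 := mord_fin hk hE hC1 (by linarith) (hC k x y hk hE hH)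
  have e3 : 3 * (4 / 3 + 2 * ε / 3) / 2 = 2 + ε := by ring
  rw [e3] at h5
  refine ⟨h5.1.trans ?_, h5.2⟩
  gcongr
  linarith

/-- the exponents are best possible -/
theorem dbl_sharp (K : Type) [Field K] (N : ℤ) : ∃ k x y : ℤ, k ≠ 0 ∧
    y ^ 2 = x ^ 3 + k ∧
    (∃ X Y l : K, Y ^ 2 = X ^ 3 + k ∧ 2 * Y * l = 3 * X ^ 2 ∧
        l ^ 2 - 2 * X = x ∧ l * (X - x) - Y = y) ∧
    N ≤ |x| ∧ |k| ^ 4 ≤ |x| ^ 3 ∧ |k| ^ 2 ≤ |y| := by
  obtain ⟨t, ht⟩ : ∃ t : ℤ, t = max N 1 := ⟨_, rfl⟩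
  have h1 : 1 ≤ t := ht ▸ le_max_right _ _
  have hN : N ≤ t := ht ▸ le_max_left _ _
  have h2 : 1 ≤ t ^ 2 := one_le_pow₀ h1
  have h3 : 1 ≤ t ^ 3 := one_le_pow₀ h1
  have h34 : t ≤ t ^ 4 := by
    have : t ^ 4 = t * t ^ 3 := by ring
    nlinarith
  have h36 : t ^ 3 ≤ t ^ 6 := by
    have : t ^ 6 = t ^ 3 * t ^ 3 := by ring
    nlinarith
  have hx : |576 * t ^ 4 - 8 * t| = 576 * t ^ 4 - 8 * t := abs_of_nonneg (by linarith)
  have hk : |1 - 64 * t ^ 3| = 64 * t ^ 3 - 1 := by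
    rw [abs_of_neg (by linarith)]
    ring
  have hy : |288 * t ^ 3 - 13824 * t ^ 6 - 1| = 13824 * t ^ 6 - 288 * t ^ 3 + 1 := by
    rw [abs_of_neg (by linarith)]
    ring
  refine ⟨1 - 64 * t ^ 3, 576 * t ^ 4 - 8 * t, 288 * t ^ 3 - 13824 * t ^ 6 - 1, by omega,
    by ring, ⟨4 * t, 1, 24 * t ^ 2, ?_, ?_, ?_, ?_⟩, ?_, ?_, ?_⟩
  · push_cast; ring
  · ring
  · push_cast; ring
  · push_cast; ring
  · rw [hx]
    linarith
  · rw [hx, hk]
    calc (64 * t ^ 3 - 1) ^ 4 ≤ (64 * t ^ 3) ^ 4 := by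
          have : 0 ≤ 64 * t ^ 3 - 1 := by linarith
          gcongr
          linarith
      _ = 16777216 * (t ^ 4) ^ 3 := by ring
      _ ≤ (568 * t ^ 4) ^ 3 := by
          have : 0 ≤ (t ^ 4) ^ 3 := by positivity
          nlinarith
      _ ≤ (576 * t ^ 4 - 8 * t) ^ 3 := by
          gcongr
          linarith
  · rw [hk, hy]
    have : (64 * t ^ 3 - 1) ^ 2 = 4096 * t ^ 6 - 128 * t ^ 3 + 1 := by ring
    rw [this]
    linarith

end Pool.Agent.Y674.HM
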